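import Mathlib

open Filter Topology Asymptotics Finset MeasureTheory
open scoped InnerProductSpace

namespace Pool.Agent.H.MP_2957ea_an

/-- Cesàro means tend to zero -/
def Z {E : Type*} [SeminormedAddCommGroup E] (v : ℕ → E) : Prop :=
  (fun N => ∑ n ∈ range N, v n) =o[atTop] fun N : ℕ => (N : ℝ)

section
variable {E : Type*} [NormedAddCommGroup E]

lemma Z.add {v w : ℕ → E} (hv : Z v) (hw : Z w) : Z fun n => v n + w n := by
  simpa only [Z, sum_add_distrib] using IsLittleO.add hv hw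

lemma Z.sub {v w : ℕ → E} (hv : Z v) (hw : Z w) : Z fun n => v n - w n := by
  simpa only [Z, sum_sub_distrib] using IsLittleO.sub hv hw

lemma Z.smul [NormedSpace ℂ E] {v : ℕ → E} (hv : Z v) (c : ℂ) : Z fun n => c • v n := by
  simpa only [Z, ← smul_sum] using! IsLittleO.const_smul_left hv c

lemma Z_iff {v : ℕ → E} :
    Z v ↔ ∀ ε > 0, ∀ᶠ N : ℕ in atTop, ‖∑ n ∈ range N, v n‖ ≤ ε * N := by
  simp [Z, isLittleO_iff]

lemma o_of_bd {f : ℕ → E} {C : ℝ} (h : ∀ N, ‖f N‖ ≤ C) : f =o[atTop] fun N : ℕ => (N : ℝ) :=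
  (IsBigO.of_bound C (g := fun _ => (1 : ℝ)) (.of_forall fun N => by simpa using h N)).trans_isLittleO
    (isLittleO_const_left.2 (.inr (tendsto_norm_atTop_atTop.comp tendsto_natCast_atTop_atTop)))

lemma shift {v : ℕ → E} {C : ℝ} (hC : ∀ n, ‖v n‖ ≤ C) (h N : ℕ) :
    ‖∑ n ∈ range N, v (n + h) - ∑ n ∈ range N, v n‖ ≤ 2 * h * C := by
  have h1 := sum_range_add v h N
  have h2 := sum_range_add v N h
  rw [add_comm N, h1] at h2
  have h3 : ∑ n ∈ range N, v (n + h) - ∑ n ∈ range N, v n =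
      ∑ n ∈ range h, v (N + n) - ∑ n ∈ range h, v n := by
    simp only [add_comm _ h]; rw [sub_eq_sub_iff_add_eq_add, add_comm, h2, add_comm]
  rw [h3]
  have b1 := norm_sum_le_of_le (range h) fun n _ => hC (N + n)
  have b2 := norm_sum_le_of_le (range h) fun n _ => hC n
  simp only [sum_const, card_range, nsmul_eq_mul] at b1 b2
  linarith [norm_sub_le (∑ n ∈ range h, v (N + n)) (∑ n ∈ range h, v n)]

lemma Z_nth {p : ℕ → Prop} [DecidablePred p] {y : ℕ → E}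
    (hp : Z fun m => (if p m then 1 else 0 : ℂ) - 1 / 4) (hy : Z fun m => if p m then y m else 0) :
    (Set.ofPred p).Infinite ∧ Z fun n => y (Nat.nth p n) := by
  have h1 : ∀ᶠ M : ℕ in atTop, (M : ℝ) ≤ 8 * Nat.count p M := by
    filter_upwards [Z_iff.1 hp (1 / 8) (by norm_num)] with M hM
    rw [sum_sub_distrib, sum_boole, ← Nat.count_eq_card_filter_range] at hM
    have := (Complex.abs_re_le_norm _).trans hM
    simp at this
    linarith [(abs_le.1 this).1]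
  have hinf : (Set.ofPred p).Infinite := fun hf => by
    obtain ⟨M, h2, h3⟩ := (h1.and (eventually_gt_atTop (8 * hf.toFinset.card))).exists
    have h4 : M ≤ 8 * Nat.count p M := by exact_mod_cast h2
    have := Nat.count_le_card hf M
    omega
  have ht := (Nat.nth_strictMono hinf).tendsto_atTop
  refine ⟨hinf, ?_⟩
  have h2 : (fun N => (Nat.nth p N : ℝ)) =O[atTop] fun N : ℕ => (N : ℝ) := by
    refine .of_bound 8 ?_
    filter_upwards [ht.eventually h1] with N hN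
    simpa [Nat.count_nth_of_infinite hinf] using hN
  refine IsLittleO.congr_left ((IsLittleO.comp_tendsto hy ht).trans_isBigO h2) fun N => ?_
  simp only [Function.comp, ← sum_filter]
  refine (sum_bij (fun n _ => Nat.nth p n) (fun n hn => ?_) (fun a _ b _ h => Nat.nth_injective hinf h)
    (fun m hm => ?_) fun _ _ => rfl).symm
  · simp only [mem_filter, mem_range] at *
    exact ⟨Nat.nth_strictMono hinf hn, Nat.nth_mem_of_infinite hinf n⟩
  · simp only [mem_filter, mem_range] at *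
    refine ⟨Nat.count p m, (Nat.nth_strictMono hinf).lt_iff_lt.1 ?_, Nat.nth_count hm.2⟩
    rw [Nat.nth_count hm.2]; exact hm.1

/-- parity of the block [2^(2^k), 2^(2^(k+1))) containing n -/
def par (n : ℕ) : Bool := decide (Even (Nat.log 2 (Nat.log 2 n)))

lemma blk (v : Bool → ℕ → E) (k N : ℕ) (h1 : 2 ^ 2 ^ k ≤ N) (h2 : N ≤ 2 ^ 2 ^ (k + 1)) :
    ∑ n ∈ range N, v (par n) n = ∑ n ∈ range (2 ^ 2 ^ k), v (par n) n +
      (∑ n ∈ range N, v (decide (Even k)) n - ∑ n ∈ range (2 ^ 2 ^ k), v (decide (Even k)) n) := by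
  rw [← sum_Ico_eq_sub _ h1, ← sum_range_add_sum_Ico _ h1]
  congr 1
  refine sum_congr rfl fun n hn => ?_
  rw [mem_Ico] at hn
  have h0 : n ≠ 0 := by have := Nat.two_pow_pos (2 ^ k); omega
  rw [par, Nat.log_eq_of_pow_le_of_lt_pow (Nat.le_log_of_pow_le one_lt_two hn.1)
    (Nat.log_lt_of_lt_pow h0 (hn.2.trans_le h2))]

lemma B_top : Tendsto (fun k : ℕ => 2 ^ 2 ^ k) atTop atTop :=
  (tendsto_pow_atTop_atTop_of_one_lt one_lt_two).comp (tendsto_pow_atTop_atTop_of_one_lt one_lt_two)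

lemma B_sq (k : ℕ) : 2 ^ 2 ^ (k + 1) = 2 ^ 2 ^ k * 2 ^ 2 ^ k := by rw [pow_succ, pow_mul, sq]

lemma Z_mix {v : Bool → ℕ → E} {C : ℝ} (hC : ∀ b n, ‖v b n‖ ≤ C) (hv : ∀ b, Z (v b)) :
    Z fun n => v (par n) n := by
  refine Z_iff.2 fun ε hε => ?_
  obtain ⟨N₀, hN₀⟩ := eventually_atTop.1 ((eventually_all.2 fun b =>
    Z_iff.1 (hv b) (ε / 5) (by positivity)).and
      (tendsto_natCast_atTop_atTop.eventually_ge_atTop (C / (ε / 5))))
  obtain ⟨k₀, hk₀⟩ := eventually_atTop.1 (B_top.eventually_ge_atTop N₀)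
  filter_upwards [eventually_ge_atTop (2 ^ 2 ^ (k₀ + 1))] with N hN
  obtain ⟨k, hk⟩ : ∃ k, Nat.log 2 (Nat.log 2 N) = k + 1 ∧ k₀ ≤ k := by
    have := Nat.le_log_of_pow_le one_lt_two (Nat.le_log_of_pow_le one_lt_two hN)
    exact ⟨Nat.log 2 (Nat.log 2 N) - 1, by omega, by omega⟩
  have h0 : N ≠ 0 := by have := Nat.two_pow_pos (2 ^ (k₀ + 1)); omega
  have h0' : Nat.log 2 N ≠ 0 := fun h => by simp [h] at hk
  have h1 : 2 ^ 2 ^ (k + 1) ≤ N := Nat.pow_le_of_le_log h0 (Nat.pow_le_of_le_log h0' hk.1.ge)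
  have h2 : N ≤ 2 ^ 2 ^ (k + 1 + 1) :=
    (Nat.lt_pow_of_log_lt one_lt_two (Nat.lt_pow_of_log_lt one_lt_two (by omega))).le
  have h3 : 2 ^ 2 ^ k ≤ 2 ^ 2 ^ (k + 1) := by rw [B_sq]; exact Nat.le_mul_self _
  rw [blk v (k + 1) N h1 h2, blk v k _ h3 le_rfl]
  have hP := hk₀ k hk.2
  set P := 2 ^ 2 ^ k
  have hQ := B_sq k
  set Q := 2 ^ 2 ^ (k + 1)
  have b0 := norm_sum_le_of_le (range P) fun n _ => hC (par n) n
  simp only [sum_const, card_range, nsmul_eq_mul] at b0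
  have b1 := (hN₀ P hP).1 (decide (Even k))
  have b2 := (hN₀ Q (by omega)).1 (decide (Even k))
  have b3 := (hN₀ Q (by omega)).1 (decide (Even (k + 1)))
  have b4 := (hN₀ N (by omega)).1 (decide (Even (k + 1)))
  have b5 := (div_le_iff₀ (by positivity)).1 (hN₀ P hP).2
  have c1 : (P : ℝ) ≤ N := by exact_mod_cast h3.trans h1
  have c2 : (Q : ℝ) ≤ N := by exact_mod_cast h1
  have c3 : (Q : ℝ) = P * P := by exact_mod_cast hQ
  refine (norm_add_le _ _).trans ((add_le_add ((norm_add_le _ _).trans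
    (add_le_add le_rfl (norm_sub_le _ _))) (norm_sub_le _ _)).trans ?_)
  nlinarith [P.cast_nonneg (α := ℝ)]

end

variable {H : Type*} [NormedAddCommGroup H] [InnerProductSpace ℂ H]

lemma vdC {v : ℕ → H} {C : ℝ} (hC : ∀ n, ‖v n‖ ≤ C)
    (hv : ∀ h h', h ≠ h' → Z fun m => ⟪v (m + h), v (m + h')⟫_ℂ) : Z v := by
  refine Z_iff.2 fun ε hε => ?_
  have C0 : 0 ≤ C := (norm_nonneg _).trans (hC 0)
  obtain ⟨K, hK⟩ := exists_nat_ge (4 * (C ^ 2 + 1) / ε ^ 2 + 2 / ε + 1)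
  have p1 : 0 ≤ 4 * (C ^ 2 + 1) / ε ^ 2 := by positivity
  have p2 : 0 ≤ 2 / ε := by positivity
  have K1 : (1 : ℝ) ≤ K := by linarith
  have K2 : 2 ≤ K * ε := (div_le_iff₀ hε).1 (by linarith)
  have K3 : 4 * (C ^ 2 + 1) ≤ K * ε ^ 2 := (div_le_iff₀ (by positivity)).1 (by linarith)
  have hR : (fun N => ∑ h ∈ range K, ∑ h' ∈ range K,
      if h = h' then 0 else ∑ m ∈ range N, ⟪v (m + h), v (m + h')⟫_ℂ) =o[atTop]
        fun N : ℕ => (N : ℝ) := by
    refine IsLittleO.fun_sum fun h _ => IsLittleO.fun_sum fun h' _ => ?_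
    split_ifs with e
    · exact isLittleO_zero _ _
    · exact hv h h' e
  have hS : (fun N => ∑ h ∈ range K, (∑ m ∈ range N, v (m + h) - ∑ m ∈ range N, v m)) =o[atTop]
      fun N : ℕ => (N : ℝ) := .fun_sum fun h _ => o_of_bd (shift hC h)
  filter_upwards [hR.bound one_pos, hS.bound one_pos] with N h1 h2
  rw [Real.norm_natCast, one_mul] at h1 h2
  rw [sum_sub_distrib, sum_const, card_range, sum_comm] at h2
  set W := ∑ m ∈ range N, ∑ h ∈ range K, v (m + h)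
  have h3 : ‖W‖ ^ 2 ≤ N * ∑ m ∈ range N, ‖∑ h ∈ range K, v (m + h)‖ ^ 2 := by
    have := sq_sum_le_card_mul_sum_sq (s := range N) (f := fun m => ‖∑ h ∈ range K, v (m + h)‖)
    rw [card_range] at this
    refine le_trans ?_ this
    gcongr; exact norm_sum_le _ _
  have h4 : ((∑ m ∈ range N, ‖∑ h ∈ range K, v (m + h)‖ ^ 2 : ℝ) : ℂ) =
      (∑ h ∈ range K, ∑ h' ∈ range K,
        if h = h' then 0 else ∑ m ∈ range N, ⟪v (m + h), v (m + h')⟫_ℂ) +
      ∑ h ∈ range K, ∑ m ∈ range N, ⟪v (m + h), v (m + h)⟫_ℂ := by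
    push_cast
    simp only [← Complex.coe_algebraMap, ← inner_self_eq_norm_sq_to_K, sum_inner]
    simp only [inner_sum]
    rw [sum_comm, ← sum_add_distrib]
    refine sum_congr rfl fun h hh => ?_
    rw [sum_comm, ← add_sum_erase _ _ hh, ← add_sum_erase _ _ hh, if_pos rfl, zero_add, add_comm]
    congr 1
    exact sum_congr rfl fun x hx => (if_neg (ne_of_mem_erase hx).symm).symm
  have h5 : ‖∑ h ∈ range K, ∑ m ∈ range N, ⟪v (m + h), v (m + h)⟫_ℂ‖ ≤ K * (N * C ^ 2) := by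
    have := norm_sum_le_of_le (range K) fun h _ => norm_sum_le_of_le (range N) fun m _ =>
      (norm_inner_le_norm (𝕜 := ℂ) (v (m + h)) (v (m + h))).trans
        (mul_le_mul (hC _) (hC _) (norm_nonneg _) C0)
    simpa [sq] using this
  have h6 : ∑ m ∈ range N, ‖∑ h ∈ range K, v (m + h)‖ ^ 2 ≤ N + K * (N * C ^ 2) := by
    refine (le_abs_self _).trans ?_
    rw [← Real.norm_eq_abs, ← Complex.norm_real, h4]
    exact (norm_add_le _ _).trans (add_le_add h1 h5)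
  have N0 := N.cast_nonneg (α := ℝ)
  have h7 : ‖W‖ ≤ K * ε / 2 * N := by
    refine abs_le_of_sq_le_sq' ?_ (by positivity) |>.2
    refine h3.trans ((mul_le_mul_of_nonneg_left h6 N0).trans ?_)
    have : 1 + K * C ^ 2 ≤ (K * ε / 2) ^ 2 := by nlinarith
    nlinarith [mul_le_mul_of_nonneg_left this (sq_nonneg (N : ℝ))]
  have h8 := norm_sub_norm_le (K • ∑ m ∈ range N, v m) W
  rw [norm_sub_rev, RCLike.norm_nsmul ℂ, nsmul_eq_mul] at h8
  refine le_of_mul_le_mul_left ?_ (show (0 : ℝ) < K by linarith)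
  nlinarith

end Pool.Agent.H.MP_2957ea_an
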