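import Pool.Agent.H.MP_2957ea_an.A

open Filter Topology Asymptotics Finset MeasureTheory
open scoped InnerProductSpace Real ComplexConjugate

namespace Pool.Agent.H.MP_2957ea_an

abbrev T := UnitAddCircle

noncomputable def q (m : ℕ) : T := (((m : ℝ) ^ 2 * √2 : ℝ) : T)

variable {H : Type*} [NormedAddCommGroup H] [InnerProductSpace ℂ H] {u : ℕ → H} {C : ℝ}

lemma Zf (hC : ∀ n, ‖u n‖ ≤ C) (hu : ∀ m h h', ⟪u (m + h), u (m + h')⟫_ℂ = ⟪u h, u h'⟫_ℂ)
    (k : ℤ) (hk : k ≠ 0) : Z fun m => fourier k (q m) • u m := by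
  refine vdC (C := C) (fun n => by simpa [norm_smul, fourier_apply] using hC n) fun h h' hh => ?_
  set z := Complex.exp (2 * π * Complex.I * (2 * k * (h' - h) * √2 : ℝ))
  have hz : z ≠ 1 := by
    intro e
    obtain ⟨n, hn⟩ := Complex.exp_eq_one_iff.1 e
    have h1 : ((2 * k * (h' - h) * √2 : ℝ) : ℂ) = n :=
      mul_left_cancel₀ Complex.two_pi_I_ne_zero (by rw [hn]; ring)
    have h2 : ((2 * k * (h' - h) : ℤ) : ℝ) * √2 = n := by exact_mod_cast h1
    exact (irrational_sqrt_two.intCast_mul (mul_ne_zero (by omega) (by omega))).ne_int n h2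
  have hn : ‖z‖ = 1 := by
    rw [show z = Complex.exp ((2 * π * (2 * k * (h' - h) * √2) : ℝ) * Complex.I) by
      simp only [z]; congr 1; push_cast; ring]
    exact Complex.norm_exp_ofReal_mul_I _
  have key : ∀ m : ℕ, ⟪fourier k (q (m + h)) • u (m + h), fourier k (q (m + h')) • u (m + h')⟫_ℂ =
      (conj (fourier k (q h)) * fourier k (q h') * ⟪u h, u h'⟫_ℂ) • z ^ m := by
    intro m
    rw [inner_smul_left, inner_smul_right, hu, ← fourier_neg, ← fourier_neg, smul_eq_mul,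
      ← mul_assoc, mul_right_comm _ _ (z ^ m)]
    simp only [q, fourier_coe_apply, z, ← Complex.exp_nat_mul, ← Complex.exp_add]
    congr 2; push_cast; ring
  simp only [key]
  refine Z.smul (o_of_bd (C := 2 / ‖z - 1‖) fun N => ?_) _
  rw [geom_sum_eq hz, norm_div]
  gcongr
  exact (norm_sub_le _ _).trans (by simp [hn]; norm_num)

instance : IsProbabilityMeasure (volume : Measure T) := ⟨by simp⟩

lemma Zc (hC : ∀ n, ‖u n‖ ≤ C) (hu : ∀ m h h', ⟪u (m + h), u (m + h')⟫_ℂ = ⟪u h, u h'⟫_ℂ)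
    (g : C(T, ℂ)) : Z fun m => (g (q m) - ∫ y, g y) • u m := by
  have hi : ∀ f : C(T, ℂ), Integrable f := fun f =>
    f.continuous.integrable_of_hasCompactSupport (HasCompactSupport.of_compactSpace _)
  have C0 : 0 ≤ C := (norm_nonneg _).trans (hC 0)
  have h1 : ∀ f ∈ Submodule.span ℂ (Set.range (fourier (T := 1))),
      Z fun m => (f (q m) - ∫ y, f y) • u m := by
    intro f hf
    induction hf using Submodule.span_induction with
    | mem x hx =>
      obtain ⟨k, rfl⟩ := hx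
      by_cases hk : k = 0
      · simp [hk, Z]
      · rw [integral_eq_zero_of_add_right_eq_neg (fourier_add_half_inv_index hk one_pos)]
        simpa using Zf hC hu k hk
    | zero => simp [Z]
    | add x y _ _ hx hy =>
      convert hx.add hy using 2
      simp only [ContinuousMap.add_apply]
      rw [integral_add (hi x) (hi y), ← add_smul]; congr 1; ring
    | smul a x _ hx =>
      convert hx.smul a using 2
      simp only [ContinuousMap.smul_apply, smul_smul, smul_eq_mul, mul_sub, integral_const_mul]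
  have hg : g ∈ closure (Submodule.span ℂ (Set.range (fourier (T := 1))) : Set _) := by
    rw [← Submodule.topologicalClosure_coe, span_fourier_closure_eq_top]; trivial
  refine Z_iff.2 fun ε hε => ?_
  obtain ⟨f, hf, hd⟩ := Metric.mem_closure_iff.1 hg (ε / (4 * (C + 1))) (by positivity)
  filter_upwards [Z_iff.1 (h1 f hf) (ε / 2) (by positivity)] with N hN
  have h2 : ∀ m, ‖(g (q m) - ∫ y, g y) • u m - (f (q m) - ∫ y, f y) • u m‖ ≤ ε / 2 := by
    intro m
    have a1 : ∀ y, ‖g y - f y‖ ≤ dist g f := fun y => by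
      rw [← dist_eq_norm]; exact ContinuousMap.dist_apply_le_dist y
    have a2 := norm_integral_le_of_norm_le_const (μ := volume) (.of_forall a1)
    rw [integral_sub (hi g) (hi f), probReal_univ, mul_one] at a2
    rw [← sub_smul, sub_sub_sub_comm, norm_smul]
    have a3 := (norm_sub_le _ _).trans (add_le_add (a1 (q m)) a2)
    rw [lt_div_iff₀ (by positivity)] at hd
    nlinarith [mul_le_mul a3 (hC m) (norm_nonneg _) (by positivity), dist_nonneg (x := g) (y := f)]
  have h3 := norm_sum_le_of_le (range N) fun m _ => h2 m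
  rw [sum_sub_distrib, sum_const, card_range, nsmul_eq_mul] at h3
  linarith [norm_le_norm_add_norm_sub' (∑ m ∈ range N, (g (q m) - ∫ y, g y) • u m)
    (∑ m ∈ range N, (f (q m) - ∫ y, f y) • u m)]

noncomputable def cl (r ε : ℝ) (y : T) : ℝ := max 0 (min 1 ((r - ‖y‖) / ε))

lemma cl_cont (r ε : ℝ) : Continuous (cl r ε) := by unfold cl; fun_prop

lemma cl_zero {r ε : ℝ} (hε : 0 < ε) {y : T} (h : r ≤ ‖y‖) : cl r ε y = 0 :=
  max_eq_left (min_le_of_right_le (div_nonpos_of_nonpos_of_nonneg (by linarith) hε.le))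

lemma cl_one {r ε : ℝ} (hε : 0 < ε) {y : T} (h : ‖y‖ ≤ r - ε) : cl r ε y = 1 := by
  rw [cl, min_eq_left ((one_le_div hε).2 (by linarith)), max_eq_right zero_le_one]

lemma cl_mem (r ε : ℝ) (y : T) : 0 ≤ cl r ε y ∧ cl r ε y ≤ 1 :=
  ⟨le_max_left _ _, max_le zero_le_one (min_le_left _ _)⟩

lemma cl_int {r ε : ℝ} (hε : 0 < ε) (h1 : ε ≤ r) (h2 : r ≤ 1 / 2) :
    2 * (r - ε) ≤ ∫ y, cl r ε y ∧ ∫ y, cl r ε y ≤ 2 * r := by
  have hb : ∀ s, 0 ≤ s → s ≤ 1 / 2 →
      ∫ y, (Metric.closedBall (0 : T) s).indicator (1 : T → ℝ) y = 2 * s := fun s a b => by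
    rw [integral_indicator_one measurableSet_closedBall, Measure.real, AddCircle.volume_closedBall,
      min_eq_right (by linarith), ENNReal.toReal_ofReal (by linarith)]
  have hi : Integrable (cl r ε) :=
    (cl_cont r ε).integrable_of_hasCompactSupport (HasCompactSupport.of_compactSpace _)
  have hj : ∀ s, Integrable ((Metric.closedBall (0 : T) s).indicator (1 : T → ℝ)) := fun s =>
    (integrable_const 1).indicator measurableSet_closedBall
  rw [← hb _ (by linarith) (by linarith), ← hb r (by linarith) h2]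
  refine ⟨integral_mono (hj _) hi fun y => ?_, integral_mono hi (hj _) fun y => ?_⟩
  · by_cases h : y ∈ Metric.closedBall (0 : T) (r - ε)
    · simp [h, cl_one hε (mem_closedBall_zero_iff.1 h)]
    · simp [h, (cl_mem r ε y).1]
  · by_cases h : y ∈ Metric.closedBall (0 : T) r
    · simp [h, (cl_mem r ε y).2]
    · simp [h, cl_zero hε (not_le.1 fun e => h (mem_closedBall_zero_iff.2 e)).le]

/-- the integers m with m² √2 close to an integer -/
def S (m : ℕ) : Prop := ‖q m‖ < 1 / 8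

noncomputable instance : DecidablePred S := Classical.decPred _

lemma Zs (hC : ∀ n, ‖u n‖ ≤ C) (hu : ∀ m h h', ⟪u (m + h), u (m + h')⟫_ℂ = ⟪u h, u h'⟫_ℂ) :
    Z fun m => ((if S m then 1 else 0 : ℂ) - 1 / 4) • u m := by
  have C0 : 0 ≤ C := (norm_nonneg _).trans (hC 0)
  refine Z_iff.2 fun ε hε => ?_
  obtain ⟨δ, hδ, d1, d2⟩ : ∃ δ : ℝ, 0 < δ ∧ δ ≤ 1 / 8 ∧ δ * (7 * C + 1) ≤ ε :=
    ⟨min (1 / 8) (ε / (7 * C + 1)), by positivity, min_le_left _ _,
      (le_div_iff₀ (by positivity)).1 (min_le_right _ _)⟩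
  have c1 := cl_cont (1 / 8) δ
  have c2 := cl_cont (1 / 8 + δ) δ
  have i1 := cl_int hδ d1 (by norm_num)
  have i2 := cl_int (r := 1 / 8 + δ) hδ (by linarith) (by linarith)
  have z1 := Zc hC hu ⟨fun y => (cl (1 / 8) δ y : ℂ), by fun_prop⟩
  have z2 := (Zc (H := ℂ) (u := fun _ => 1) (C := 1) (by simp) (by simp)
    ⟨fun y => (cl (1 / 8 + δ) δ y : ℂ), by fun_prop⟩).sub
    (Zc (H := ℂ) (u := fun _ => 1) (C := 1) (by simp) (by simp)
    ⟨fun y => (cl (1 / 8) δ y : ℂ), by fun_prop⟩)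
  filter_upwards [Z_iff.1 z1 δ hδ, Z_iff.1 z2 δ hδ] with N h1 h2
  simp only [ContinuousMap.coe_mk, integral_complex_ofReal, smul_eq_mul, mul_one] at h1 h2
  have h3 : ∑ m ∈ range N, (cl (1 / 8 + δ) δ (q m) - cl (1 / 8) δ (q m)) ≤ 5 * δ * N := by
    norm_cast at h2
    have := (le_abs_self _).trans h2
    simp only [sum_sub_distrib, sum_const, card_range, nsmul_eq_mul] at this ⊢
    nlinarith [N.cast_nonneg (α := ℝ), i1.1, i2.2]
  have h4 : ∀ m, ‖((if S m then 1 else 0 : ℂ) - 1 / 4) • u m -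
      ((cl (1 / 8) δ (q m) : ℂ) - (∫ y, cl (1 / 8) δ y : ℝ)) • u m‖ ≤
      (cl (1 / 8 + δ) δ (q m) - cl (1 / 8) δ (q m) + 2 * δ) * C := by
    intro m
    have m1 := cl_mem (1 / 8) δ (q m)
    have m2 := cl_mem (1 / 8 + δ) δ (q m)
    rw [← sub_smul, norm_smul]
    refine mul_le_mul ?_ (hC m) (norm_nonneg _) ?_
    · by_cases h : S m
      · rw [if_pos h, cl_one hδ (r := 1 / 8 + δ) (by unfold S at h; linarith),
          show (1 : ℂ) - 1 / 4 = ((3 / 4 : ℝ) : ℂ) by push_cast; ring, ← Complex.ofReal_sub,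
          ← Complex.ofReal_sub, Complex.norm_real]
        exact abs_le.2 ⟨by linarith [i1.1], by linarith [i1.2]⟩
      · rw [if_neg h, cl_zero hδ (not_lt.1 h),
          show (0 : ℂ) - 1 / 4 = ((-1 / 4 : ℝ) : ℂ) by push_cast; ring, ← Complex.ofReal_sub,
          ← Complex.ofReal_sub, Complex.norm_real]
        exact abs_le.2 ⟨by linarith [i1.1], by linarith [i1.2]⟩
    · by_cases h : S m
      · rw [cl_one hδ (r := 1 / 8 + δ) (by unfold S at h; linarith)]; linarith
      · rw [cl_zero hδ (not_lt.1 h)]; linarith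
  have h5 := norm_sum_le_of_le (range N) fun m _ => h4 m
  rw [sum_sub_distrib, ← sum_mul, sum_add_distrib, sum_const, card_range, nsmul_eq_mul] at h5
  have h6 := (norm_le_norm_add_norm_sub' _ _).trans (add_le_add h1 h5)
  nlinarith [N.cast_nonneg (α := ℝ), mul_le_mul_of_nonneg_right h3 C0,
    mul_le_mul_of_nonneg_right d2 (N.cast_nonneg (α := ℝ))]

lemma Zs1 : Z fun m => (if S m then 1 else 0 : ℂ) - 1 / 4 := by
  simpa using Zs (H := ℂ) (u := fun _ => 1) (C := 1) (by simp) (by simp)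

/-- the sequence: S enumerated on even blocks, the identity on odd blocks -/
noncomputable def a (n : ℕ) : ℕ := if par n then Nat.nth S n else n

lemma Za (hC : ∀ n, ‖u n‖ ≤ C) (hu : ∀ m h h', ⟪u (m + h), u (m + h')⟫_ℂ = ⟪u h, u h'⟫_ℂ)
    {L : H} (hL : Z fun m => u m - L) : Z fun n => u (a n) - L := by
  have h1 : Z fun m => if S m then u m - L else 0 := by
    convert ((Zs hC hu).sub (Zs (u := fun _ => L) (fun _ => le_rfl) fun _ _ _ => rfl)).add
      (hL.smul (1 / 4)) using 2 with m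
    split_ifs <;> module
  refine Z_mix (v := fun b n => u (if b then Nat.nth S n else n) - L) (C := C + ‖L‖)
    (fun b n => (norm_sub_le _ _).trans (add_le_add (hC _) le_rfl)) fun b => ?_
  cases b
  · simpa using hL
  · simpa using (Z_nth Zs1 h1).2

lemma re_S {m : ℕ} (h : S m) : 1 / 2 ≤ (fourier 1 (q m)).re := by
  unfold S q at h
  rw [q, fourier_coe_apply]
  set s := (m : ℝ) ^ 2 * √2
  rw [show 2 * π * Complex.I * (1 : ℤ) * s / (1 : ℝ) = (2 * π * s : ℝ) * Complex.I by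
    push_cast; ring, Complex.exp_ofReal_mul_I_re, ← Real.cos_sub_int_mul_two_pi _ (round s)]
  rw [UnitAddCircle.norm_eq] at h
  have h1 := Real.one_sub_sq_div_two_le_cos (x := 2 * π * s - round s * (2 * π))
  have h2 : (s - round s) ^ 2 ≤ (1 / 8) ^ 2 := by rw [← sq_abs]; gcongr
  have h3 : π ^ 2 ≤ 16 := by nlinarith [Real.pi_le_four, Real.pi_pos]
  nlinarith [mul_le_mul h3 h2 (sq_nonneg _) (by norm_num)]

lemma diverge (L : ℂ) : ¬Z fun n => fourier 1 (q (a n)) - L := by
  intro h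
  have h0 : Z fun n => fourier 1 (q n) := by
    simpa using Zf (H := ℂ) (u := fun _ => 1) (C := 1) (by simp) (by simp) 1 one_ne_zero
  obtain ⟨N₀, hN₀⟩ := eventually_atTop.1 (((Z_iff.1 h (1 / 20) (by norm_num)).and
    (Z_iff.1 h0 (1 / 20) (by norm_num))).and (eventually_ge_atTop 40))
  obtain ⟨k₀, hk₀⟩ := eventually_atTop.1 (B_top.eventually_ge_atTop N₀)
  let v : Bool → ℕ → ℝ := fun b n => (fourier 1 (q (if b then Nat.nth S n else n))).re
  have hv : ∀ b n, ‖v b n‖ ≤ 1 := fun b n =>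
    (Complex.abs_re_le_norm _).trans (by simp [fourier_apply])
  have key : ∀ k, k₀ ≤ k → ∃ Q : ℕ, N₀ ≤ Q ∧ 0 < Q ∧
      |∑ n ∈ range Q, v (decide (Even k)) n - Q * L.re| ≤ Q / 10 := by
    intro k hk
    have h3 : 2 ^ 2 ^ k ≤ 2 ^ 2 ^ (k + 1) := by rw [B_sq]; exact Nat.le_mul_self _
    have h4 := blk v k _ h3 le_rfl
    have hP := hk₀ k hk
    have hQ := B_sq k
    set P := 2 ^ 2 ^ k
    set Q := 2 ^ 2 ^ (k + 1)
    have b0 := norm_sum_le_of_le (range P) fun n _ => hv (par n) n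
    have b1 := norm_sum_le_of_le (range P) fun n _ => hv (decide (Even k)) n
    simp only [sum_const, card_range, nsmul_eq_mul, mul_one, Real.norm_eq_abs, abs_le] at b0 b1
    have b2 := (Complex.abs_re_le_norm _).trans (hN₀ Q (by omega)).1.1
    simp only [sum_sub_distrib, sum_const, card_range, nsmul_eq_mul, Complex.sub_re,
      Complex.re_sum, Complex.mul_re, Complex.natCast_re, Complex.natCast_im, zero_mul,
      sub_zero, abs_le] at b2
    have b3 : (40 : ℝ) ≤ P := by exact_mod_cast (hN₀ P hP).2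
    have c3 : (Q : ℝ) = P * P := by exact_mod_cast hQ
    have b4 : ∑ n ∈ range Q, (fourier 1 (q (a n))).re = ∑ n ∈ range Q, v (par n) n := rfl
    refine ⟨Q, by omega, Nat.two_pow_pos _, abs_le.2 ⟨?_, ?_⟩⟩ <;>
      nlinarith [b0.1, b0.2, b1.1, b1.2, b2.1, b2.2]
  obtain ⟨Q, -, q1, q2⟩ := key (2 * k₀) (by omega)
  obtain ⟨R, r0, r1, r2⟩ := key (2 * k₀ + 1) (by omega)
  rw [decide_eq_true (even_two_mul k₀), abs_le] at q2
  rw [decide_eq_false (by simp), abs_le] at r2
  have q3 : ∑ n ∈ range Q, (1 / 2 : ℝ) ≤ ∑ n ∈ range Q, v true n :=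
    sum_le_sum fun n _ => re_S (Nat.nth_mem_of_infinite (Z_nth (y := fun _ => (0 : ℂ)) Zs1
      (by simp [Z])).1 n)
  have r3 := (Complex.abs_re_le_norm _).trans (hN₀ R r0).1.2
  have r4 : (∑ n ∈ range R, fourier 1 (q n)).re = ∑ n ∈ range R, v false n := by
    rw [Complex.re_sum]; rfl
  rw [r4, abs_le] at r3
  simp only [sum_const, card_range, nsmul_eq_mul] at q3
  have q4 : (0 : ℝ) < Q := by exact_mod_cast q1
  have r5 : (0 : ℝ) < R := by exact_mod_cast r1
  have e1 : 2 / 5 ≤ L.re := le_of_mul_le_mul_left (by linarith [q2.2]) q4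
  have e2 : L.re ≤ 3 / 20 := le_of_mul_le_mul_left (by linarith [r2.1, r3.2]) r5
  linarith

end Pool.Agent.H.MP_2957ea_an
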